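import Pool.Agent.Helper19.HV.Curve
import Pool.Agent.Helper91.PL.A5

/-!
# Project HV (MP_bae8ce_ag): module F2K

An element of `ℚ[P^1(G)]` killed by all symbols `sy2 A` is in the kernel of `δ2`.
-/

set_option autoImplicit false

namespace Pool.Agent.Helper19.HV

noncomputable section

open PL

variable {G : Type} [Field G]

private theorem f2k_upd0 (a b : V G) :
    (![a, b] : Fin 2 → V G) = Function.update ![0, b] 0 a := by
  funext i
  fin_cases i <;> simp

private theorem f2k_upd1 (a b : V G) :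
    (![a, b] : Fin 2 → V G) = Function.update ![a, 0] 1 b := by
  funext i
  fin_cases i <;> simp

private theorem f2k_add0 (φ : MultilinearMap ℚ (fun _ : Fin 2 => V G) ℚ) (a a' b : V G) :
    φ ![a + a', b] = φ ![a, b] + φ ![a', b] := by
  rw [f2k_upd0 (a + a') b, MultilinearMap.map_update_add, ← f2k_upd0, ← f2k_upd0]

private theorem f2k_smul0 (φ : MultilinearMap ℚ (fun _ : Fin 2 => V G) ℚ) (c : ℚ) (a b : V G) :
    φ ![c • a, b] = c * φ ![a, b] := by
  rw [f2k_upd0 (c • a) b, MultilinearMap.map_update_smul, ← f2k_upd0, smul_eq_mul]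

private theorem f2k_add1 (φ : MultilinearMap ℚ (fun _ : Fin 2 => V G) ℚ) (a b b' : V G) :
    φ ![a, b + b'] = φ ![a, b] + φ ![a, b'] := by
  rw [f2k_upd1 a (b + b'), MultilinearMap.map_update_add, ← f2k_upd1, ← f2k_upd1]

private theorem f2k_smul1 (φ : MultilinearMap ℚ (fun _ : Fin 2 => V G) ℚ) (c : ℚ) (a b : V G) :
    φ ![a, c • b] = c * φ ![a, b] := by
  rw [f2k_upd1 a (c • b), MultilinearMap.map_update_smul, ← f2k_upd1, smul_eq_mul]

/-- The antisymmetrisation of a bilinear form. -/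
private def f2kA (φ : MultilinearMap ℚ (fun _ : Fin 2 => V G) ℚ) : V G →ₗ[ℚ] V G →ₗ[ℚ] ℚ :=
  LinearMap.mk₂ ℚ (fun a b => φ ![a, b] - φ ![b, a])
    (by
      intro a a' b
      rw [f2k_add0, f2k_add1]
      ring)
    (by
      intro c a b
      rw [f2k_smul0, f2k_smul1, smul_eq_mul]
      ring)
    (by
      intro a b b'
      rw [f2k_add0, f2k_add1]
      ring)
    (by
      intro c a b
      rw [f2k_smul0, f2k_smul1, smul_eq_mul]
      ring)

private theorem f2kA_al (φ : MultilinearMap ℚ (fun _ : Fin 2 => V G) ℚ) : Al2 (f2kA φ) := by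
  intro v
  simp [f2kA]

private theorem f2k_sy (φ : MultilinearMap ℚ (fun _ : Fin 2 => V G) ℚ) :
    sy2 (f2kA φ) = Sy (q := 0) φ := by
  funext x
  have h1 : (![cl1 x, cl x] : Fin 2 → V G) = Fin.cons (cl1 x) fun _ => cl x := by
    funext i
    fin_cases i <;> rfl
  have h2 : (![cl x, cl1 x] : Fin 2 → V G) =
      Fin.cons (cl x) (Fin.cons (cl1 x) fun _ => cl x) := by
    funext i
    fin_cases i <;> rfl
  unfold sy2 Sy
  change φ ![cl1 x, cl x] - φ ![cl x, cl1 x] = _
  rw [h1, h2]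

/-- An element of `ℚ[P^1(G)]` killed by all symbols `sy2 A` is in `AA 2 G`. -/
theorem mF2K {G : Type} [Field G] (α : ZP G)
    (h : ∀ A : V G →ₗ[ℚ] V G →ₗ[ℚ] ℚ, Al2 A → Finsupp.linearCombination ℚ (sy2 A) α = 0) :
    α ∈ AA 2 G := by
  change α ∈ LinearMap.ker (δ2 G)
  rw [ker_δ2, a5_mem_NN]
  intro φ
  have := h (f2kA φ) (f2kA_al φ)
  rwa [f2k_sy φ] at this

end

end Pool.Agent.Helper19.HV
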